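import Pool.Agent.V11329.CM.Kak

/-!
# The circular maximal function and the compressed segments (MP_0c3b5b_an)
-/

set_option autoImplicit false

open Finset MeasureTheory

namespace V11329.CM

/-- The mean of `|f|` over the circle with centre `x` and radius `r`. -/
noncomputable def circMean (f : ℝ × ℝ → ℂ) (x : ℝ × ℝ) (r : ℝ) : ENNReal :=
  (∫⁻ θ in Set.Icc (0:ℝ) (2 * Real.pi), ‖f (x.1 + r * Real.cos θ, x.2 + r * Real.sin θ)‖ₑ)
    / ENNReal.ofReal (2 * Real.pi)

/-- The circular maximal function: the supremum of the means over all radii. -/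
noncomputable def circMax (f : ℝ × ℝ → ℂ) (x : ℝ × ℝ) : ENNReal :=
  ⨆ (r : ℝ) (_ : 0 < r), circMean f x r

/-- The operator `T` is of restricted weak type `(2,2)`. -/
def RestrictedWeakType (T : (ℝ × ℝ → ℂ) → ℝ × ℝ → ENNReal) : Prop :=
  ∃ C : NNReal, ∀ E : Set (ℝ × ℝ), MeasurableSet E → volume E < ⊤ → ∀ μ : ℝ, 0 < μ →
    volume {x : ℝ × ℝ | ENNReal.ofReal μ < T (E.indicator (fun _ => (1:ℂ))) x}
      ≤ C * ENNReal.ofReal (1 / μ ^ 2) * volume E

/-- The union of the thickened segments, scaled by `2^{-M}`. -/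
def EE (n m : ℕ) : Set (ℝ × ℝ) :=
  {q | 0 ≤ q.1 ∧ q.1 ≤ 1 / 2 ^ (n + m) ∧ ∃ j < 2 ^ (n + m),
    |q.2 - ((1 / 2 ^ (n + m)) * cc n (n + m) j - tt (n + m) j * q.1)|
      ≤ (1 / 2 ^ (n + m)) * (1 / 2 ^ (n + m))}

theorem EE_eq (n m : ℕ) : EE n m = ⋃ j ∈ Finset.range (2 ^ (n + m)),
    {q : ℝ × ℝ | 0 ≤ q.1 ∧ q.1 ≤ 1 / 2 ^ (n + m) ∧
    |q.2 - ((1 / 2 ^ (n + m)) * cc n (n + m) j - tt (n + m) j * q.1)|
      ≤ (1 / 2 ^ (n + m)) * (1 / 2 ^ (n + m))} := by
  ext q
  simp only [EE, Set.mem_iUnion, Finset.mem_range, Set.mem_ofPred_eq, exists_prop]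
  constructor
  · rintro ⟨h1, h2, j, hj, h3⟩
    exact ⟨j, hj, h1, h2, h3⟩
  · rintro ⟨j, hj, h1, h2, h3⟩
    exact ⟨h1, h2, j, hj, h3⟩

theorem EE_meas (n m : ℕ) : MeasurableSet (EE n m) := by
  rw [EE_eq]
  apply Finset.measurableSet_biUnion
  intro j _
  have h1 : MeasurableSet {q : ℝ × ℝ | 0 ≤ q.1} :=
    measurableSet_le measurable_const measurable_fst
  have h2 : MeasurableSet {q : ℝ × ℝ | q.1 ≤ 1 / 2 ^ (n + m)} :=
    measurableSet_le measurable_fst measurable_const
  have h3 : MeasurableSet {q : ℝ × ℝ |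
      |q.2 - ((1 / 2 ^ (n + m)) * cc n (n + m) j - tt (n + m) j * q.1)|
      ≤ (1 / 2 ^ (n + m)) * (1 / 2 ^ (n + m))} :=
    measurableSet_le (by fun_prop) measurable_const
  exact h1.inter (h2.inter h3)

theorem EE_volume (n m : ℕ) (hn : 0 < n) (hm : n ≤ 2 ^ m) :
    volume (EE n m) ≤ ENNReal.ofReal ((1 / 2 ^ (n + m)) ^ 2 * (4 / n)) := by
  set l : ℝ := 1 / 2 ^ (n + m) with hl
  have hl0 : 0 < l := by rw [hl]; positivity
  rw [Measure.volume_eq_prod, Measure.prod_apply (EE_meas n m)]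
  have h1 : ∀ x : ℝ, volume (Prod.mk x ⁻¹' EE n m)
      ≤ (Set.Icc (0:ℝ) l).indicator (fun _ => ENNReal.ofReal (l * (4 / n))) x := by
    intro x
    by_cases hx : x ∈ Set.Icc (0:ℝ) l
    · rw [Set.indicator_of_mem hx]
      have h2 := slice_measure n m hn hm l (x / l) hl0 (div_nonneg hx.1 hl0.le)
        ((div_le_one hl0).2 hx.2)
      refine (measure_mono ?_).trans h2
      rintro y ⟨_, _, j, hj, h3⟩
      refine ⟨j, hj, ?_⟩
      have e : l * (cc n (n + m) j - tt (n + m) j * (x / l))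
          = l * cc n (n + m) j - tt (n + m) j * x := by field_simp
      rw [e]
      exact h3
    · rw [Set.indicator_of_notMem hx]
      have : Prod.mk x ⁻¹' EE n m = ∅ := by
        ext y
        constructor
        · rintro ⟨h2, h3, _⟩
          exact (hx ⟨h2, h3⟩).elim
        · intro h; exact h.elim
      rw [this, measure_empty]
  refine (lintegral_mono h1).trans ?_
  rw [lintegral_indicator measurableSet_Icc, setLIntegral_const, Real.volume_Icc, sub_zero,
    ← ENNReal.ofReal_mul (by positivity)]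
  apply ENNReal.ofReal_le_ofReal
  apply le_of_eq
  ring

/-- The set of good centres at height `y`. -/
noncomputable def lo (l t c y : ℝ) : ℝ := t * y - l * t * c + l / 4 * (1 + t ^ 2)

theorem mean_ge (n m j : ℕ) (hn : 0 < n) (hj : j < 2 ^ (n + m)) (x y : ℝ) (hy3 : 3 ≤ y)
    (hy4 : y ≤ 4)
    (hlo : lo (1 / 2 ^ (n + m)) (tt (n + m) j) (cc n (n + m) j) y ≤ x)
    (hhi : x ≤ lo (1 / 2 ^ (n + m)) (tt (n + m) j) (cc n (n + m) j) y
      + (1 / 2 ^ (n + m)) / 2 * (1 + (tt (n + m) j) ^ 2)) :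
    ENNReal.ofReal ((1 / 2 ^ (n + m)) / 256)
      ≤ circMax ((EE n m).indicator (fun _ => (1:ℂ))) (x, y) := by
  set l : ℝ := 1 / 2 ^ (n + m) with hl
  have hl0 : 0 < l := by rw [hl]; positivity
  have hl1 : l ≤ 1 := by
    rw [hl, div_le_one (by positivity)]
    exact one_le_pow₀ (by norm_num)
  set t : ℝ := tt (n + m) j with ht
  set c : ℝ := cc n (n + m) j with hc
  have ht0 : 0 ≤ t := tt_nonneg _ _
  have ht1 : t ≤ 1 := tt_le_one hj
  have hc0 : 0 ≤ c := cc_nonneg _ _ _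
  have hc1 : c ≤ 1 := cc_le_one hn (by omega) hj
  have hw2 : 0 < 1 + t ^ 2 := by positivity
  set w : ℝ := Real.sqrt (1 + t ^ 2) with hw
  have hww : w ^ 2 = 1 + t ^ 2 := Real.sq_sqrt hw2.le
  have hw0 : 0 < w := Real.sqrt_pos.2 hw2
  have ht2 : t ^ 2 ≤ 1 := pow_le_one₀ ht0 ht1
  have ht20 : 0 ≤ t ^ 2 := by positivity
  have hw1 : 1 ≤ w := Real.one_le_sqrt.2 (by linarith)
  have hw15 : w ≤ 3 / 2 := Real.sqrt_le_iff.2 ⟨by norm_num, by norm_num; linarith⟩
  have htc : t * c ≤ 1 := mul_le_one₀ ht1 hc0 hc1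
  have htc0 : 0 ≤ t * c := by positivity
  have hltc : l * t * c ≤ l := by
    have := mul_le_mul_of_nonneg_left htc hl0.le
    linarith
  have hltc0 : 0 ≤ l * t * c := by positivity
  have hlt2 : l * t ^ 2 ≤ l := by
    have := mul_le_mul_of_nonneg_left ht2 hl0.le
    linarith
  have hlt20 : 0 ≤ l * t ^ 2 := by positivity
  have hlt : l * t ≤ 1 := mul_le_one₀ hl1 ht0 ht1
  have hlc : l * c ≤ 1 := mul_le_one₀ hl1 hc0 hc1
  have hlc0 : 0 ≤ l * c := by positivity
  set u : ℝ := (x - t * y + l * t * c) / (1 + t ^ 2) with hu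
  have hu' : u * (1 + t ^ 2) = x - t * y + l * t * c := by rw [hu]; field_simp
  unfold lo at hlo hhi
  have hu1 : l / 4 ≤ u := by
    rw [hu, le_div_iff₀ hw2]; linarith
  have hu2 : u ≤ 3 * l / 4 := by
    rw [hu, div_le_iff₀ hw2]; linarith
  set s : ℝ := t * x + y - l * c with hs
  have hs1 : 1 ≤ s := by
    have h1 : t * y - l ≤ x := by linarith
    have h2 : t * (t * y - l) ≤ t * x := mul_le_mul_of_nonneg_left h1 ht0
    have h3 : 0 ≤ t * (t * y) := by positivity
    rw [hs]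
    linarith
  have hs2 : s ≤ 10 := by
    have h1 : x ≤ t * y + 2 * l := by linarith
    have h2 : t * x ≤ t * (t * y + 2 * l) := mul_le_mul_of_nonneg_left h1 ht0
    have h3 : t ^ 2 * y ≤ 1 * 4 := mul_le_mul ht2 hy4 (by linarith) (by norm_num)
    rw [hs]
    linarith
  set r : ℝ := s / w with hr
  have hr0 : 0 < r := by rw [hr]; positivity
  have hr10 : r ≤ 10 := by
    rw [hr, div_le_iff₀ hw0]; linarith
  have hrw : r / w * (1 + t ^ 2) = s := by
    rw [hr, ← hww]; field_simp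
  -- coordinates of the centre
  have hx : x = u + (r / w) * t := by
    have h1 : (u + (r / w) * t) * (1 + t ^ 2) = x * (1 + t ^ 2) := by
      have : (u + (r / w) * t) * (1 + t ^ 2) = u * (1 + t ^ 2) + (r / w * (1 + t ^ 2)) * t := by ring
      rw [this, hu', hrw, hs]; ring
    exact (mul_right_cancel₀ hw2.ne' h1).symm
  have hyy : y = l * c - t * u + r / w := by
    have h1 : (l * c - t * u + r / w) * (1 + t ^ 2) = y * (1 + t ^ 2) := by
      have : (l * c - t * u + r / w) * (1 + t ^ 2)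
          = l * c * (1 + t ^ 2) - t * (u * (1 + t ^ 2)) + r / w * (1 + t ^ 2) := by ring
      rw [this, hu', hrw, hs]; ring
    exact (mul_right_cancel₀ hw2.ne' h1).symm
  set A : ℝ := Real.arctan t with hA
  have hA0 : 0 ≤ A := Real.arctan_nonneg.2 ht0
  have hA1 : A < Real.pi / 2 := Real.arctan_lt_pi_div_two t
  have hcosA : Real.cos A = 1 / w := Real.cos_arctan t
  have hsinA : Real.sin A = t / w := Real.sin_arctan t
  have hpi := Real.pi_gt_three
  have hpi4 := Real.pi_le_four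
  -- the arc
  have harc : ∀ θ ∈ Set.Icc (3 * Real.pi / 2 - A - l / 64) (3 * Real.pi / 2 - A + l / 64),
      (x + r * Real.cos θ, y + r * Real.sin θ) ∈ EE n m := by
    intro θ hθ
    set ψ : ℝ := θ - (3 * Real.pi / 2 - A) with hψ
    have hψ1 : |ψ| ≤ l / 64 := by
      rw [abs_le]; constructor <;> [linarith [hθ.1]; linarith [hθ.2]]
    have hθ' : θ = Real.pi + (Real.pi / 2 - (A - ψ)) := by rw [hψ]; ring
    have hcos : Real.cos θ = (-(t * Real.cos ψ) + Real.sin ψ) / w := by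
      rw [hθ', add_comm Real.pi, Real.cos_add_pi, Real.cos_pi_div_two_sub, Real.sin_sub, hcosA,
        hsinA]
      field_simp
      ring
    have hsin : Real.sin θ = (-(Real.cos ψ) - t * Real.sin ψ) / w := by
      rw [hθ', add_comm Real.pi, Real.sin_add_pi, Real.sin_pi_div_two_sub, Real.cos_sub, hcosA,
        hsinA]
      field_simp
      ring
    have hq1 : x + r * Real.cos θ = u + (r / w) * (t * (1 - Real.cos ψ) + Real.sin ψ) := by
      rw [hcos, hx]; field_simp; ring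
    have hq2 : y + r * Real.sin θ
        = l * c - t * u + (r / w) * (1 - Real.cos ψ - t * Real.sin ψ) := by
      rw [hsin, hyy]; field_simp; ring
    have hrw' : r / w ≤ 10 := by
      rw [div_le_iff₀ hw0]; linarith
    have hrw0 : 0 < r / w := by positivity
    have hcos1 : 0 ≤ 1 - Real.cos ψ := by linarith [Real.cos_le_one ψ]
    have hcos2 : 1 - Real.cos ψ ≤ ψ ^ 2 / 2 := by linarith [Real.one_sub_sq_div_two_le_cos (x := ψ)]
    have hsin1 : |Real.sin ψ| ≤ |ψ| := Real.abs_sin_le_abs (x := ψ)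
    have hψ2 : ψ ^ 2 ≤ (l / 64) ^ 2 := by
      rw [← sq_abs ψ]; exact pow_le_pow_left₀ (abs_nonneg _) hψ1 2
    have hd : |(r / w) * (t * (1 - Real.cos ψ) + Real.sin ψ)| ≤ l / 4 := by
      rw [abs_mul, abs_of_pos hrw0]
      have h1 : |t * (1 - Real.cos ψ) + Real.sin ψ| ≤ l / 64 * (3 / 2) := by
        refine (abs_add_le _ _).trans ?_
        rw [abs_mul, abs_of_nonneg ht0, abs_of_nonneg hcos1]
        have h2 : t * (1 - Real.cos ψ) ≤ 1 * (ψ ^ 2 / 2) :=
          mul_le_mul ht1 hcos2 hcos1 (by norm_num)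
        have h3 : l * l ≤ l * 1 := mul_le_mul_of_nonneg_left hl1 hl0.le
        have h4 : (l / 64) ^ 2 = l * l / 4096 := by ring
        linarith
      calc r / w * |t * (1 - Real.cos ψ) + Real.sin ψ| ≤ 10 * (l / 64 * (3 / 2)) :=
            mul_le_mul hrw' h1 (abs_nonneg _) (by norm_num)
        _ ≤ l / 4 := by linarith
    rw [abs_le] at hd
    show 0 ≤ x + r * Real.cos θ ∧ x + r * Real.cos θ ≤ 1 / 2 ^ (n + m) ∧ _
    refine ⟨by rw [hq1]; linarith [hd.1], by rw [hq1, ← hl]; linarith [hd.2], j, hj, ?_⟩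
    rw [← hl, ← ht, ← hc]
    show |y + r * Real.sin θ - (l * c - t * (x + r * Real.cos θ))| ≤ l * l
    have e : y + r * Real.sin θ - (l * c - t * (x + r * Real.cos θ))
        = (r / w * (1 + t ^ 2)) * (1 - Real.cos ψ) := by
      rw [hq1, hq2]; ring
    rw [e, hrw, abs_of_nonneg (by positivity)]
    have h4 : (l / 64) ^ 2 = l * l / 4096 := by ring
    have h5 : 0 ≤ l * l := by positivity
    calc s * (1 - Real.cos ψ) ≤ 10 * (ψ ^ 2 / 2) :=
          mul_le_mul hs2 hcos2 hcos1 (by norm_num)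
      _ ≤ l * l := by linarith
  -- the mean over this circle
  have hmean : ENNReal.ofReal (l / 256)
      ≤ circMean ((EE n m).indicator (fun _ => (1:ℂ))) (x, y) r := by
    unfold circMean
    have hsub : Set.Icc (3 * Real.pi / 2 - A - l / 64) (3 * Real.pi / 2 - A + l / 64)
        ⊆ Set.Icc (0:ℝ) (2 * Real.pi) := by
      intro θ hθ
      constructor
      · linarith [hθ.1]
      · have := hθ.2
        have h1 : 3 * Real.pi / 2 + 1 ≤ 2 * Real.pi := by linarith
        linarith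
    have h1 : ENNReal.ofReal (l / 32) ≤ ∫⁻ θ in Set.Icc (0:ℝ) (2 * Real.pi),
        ‖(EE n m).indicator (fun _ => (1:ℂ)) (x + r * Real.cos θ, y + r * Real.sin θ)‖ₑ := by
      calc ENNReal.ofReal (l / 32)
          = ∫⁻ θ in Set.Icc (3 * Real.pi / 2 - A - l / 64) (3 * Real.pi / 2 - A + l / 64),
            (1 : ENNReal) := by
            rw [setLIntegral_const, Real.volume_Icc, one_mul]
            congr 1; ring
        _ = ∫⁻ θ in Set.Icc (3 * Real.pi / 2 - A - l / 64) (3 * Real.pi / 2 - A + l / 64),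
            ‖(EE n m).indicator (fun _ => (1:ℂ)) (x + r * Real.cos θ, y + r * Real.sin θ)‖ₑ := by
            apply setLIntegral_congr_fun measurableSet_Icc
            intro θ hθ
            simp only
            rw [Set.indicator_of_mem (harc θ hθ)]
            simp
        _ ≤ _ := lintegral_mono_set hsub
    rw [ENNReal.le_div_iff_mul_le (Or.inl (by
      rw [Ne, ENNReal.ofReal_eq_zero, not_le]; positivity)) (Or.inl ENNReal.ofReal_ne_top)]
    refine le_trans ?_ h1
    rw [← ENNReal.ofReal_mul (by positivity)]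
    apply ENNReal.ofReal_le_ofReal
    have h6 : l * Real.pi ≤ l * 4 := mul_le_mul_of_nonneg_left hpi4 hl0.le
    linarith
  exact hmean.trans (le_iSup₂ (f := fun (r : ℝ) (_ : 0 < r) =>
    circMean ((EE n m).indicator (fun _ => (1:ℂ))) (x, y) r) r hr0)

end V11329.CM
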