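import Mathlib

/-!
# A compressed family of line segments (MP_0c3b5b_an)

Directions `t_j = j / 2^M`, `M = n + m`, and intercepts `c_j`, the average of the truncations of
`t_j` to `1, …, n` binary digits: the segments `y = c_j - t_j z`, `0 ≤ z ≤ 1`, thickened by
`2^{-M}`, have small union.
-/

set_option autoImplicit false

open Finset MeasureTheory

namespace V11329.CM

/-- the truncation of `j / 2^M` to `i` binary digits -/
noncomputable def tr (M i j : ℕ) : ℝ := ((j / 2 ^ (M - i) : ℕ) : ℝ) / 2 ^ i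

/-- the direction `j / 2^M` -/
noncomputable def tt (M j : ℕ) : ℝ := (j : ℝ) / 2 ^ M

/-- the intercept -/
noncomputable def cc (n M j : ℕ) : ℝ := (∑ i ∈ range n, tr M (i + 1) j) / n

theorem tr_le (M i j : ℕ) (hi : i ≤ M) : tr M i j ≤ tt M j := by
  unfold tr tt
  rw [div_le_div_iff₀ (by positivity) (by positivity)]
  have h1 : (j / 2 ^ (M - i)) * 2 ^ (M - i) ≤ j := Nat.div_mul_le_self _ _
  have h2 : (2:ℝ) ^ M = 2 ^ (M - i) * 2 ^ i := by rw [← pow_add]; congr 1; omega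
  have h3 : ((j / 2 ^ (M - i) : ℕ) : ℝ) * 2 ^ (M - i) ≤ j := by exact_mod_cast h1
  rw [h2]
  have h4 : (0:ℝ) < 2 ^ i := by positivity
  nlinarith

theorem le_tr (M i j : ℕ) (hi : i ≤ M) : tt M j - 1 / 2 ^ i ≤ tr M i j := by
  unfold tr tt
  have h1 : j < (j / 2 ^ (M - i) + 1) * 2 ^ (M - i) := by
    have := Nat.lt_mul_div_succ j (show 0 < 2 ^ (M - i) by positivity)
    calc j < 2 ^ (M - i) * (j / 2 ^ (M - i) + 1) := this
      _ = _ := by ring
  have h2 : (2:ℝ) ^ M = 2 ^ (M - i) * 2 ^ i := by rw [← pow_add]; congr 1; omega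
  have h3 : (j:ℝ) ≤ (((j / 2 ^ (M - i) : ℕ) : ℝ) + 1) * 2 ^ (M - i) := by exact_mod_cast h1.le
  have h4 : (0:ℝ) < 2 ^ i := by positivity
  have h5 : (0:ℝ) < 2 ^ (M - i) := by positivity
  rw [h2, sub_le_iff_le_add, ← add_div, div_le_div_iff₀ (by positivity) (by positivity)]
  nlinarith [mul_le_mul_of_nonneg_right h3 h4.le]

theorem tt_nonneg (M j : ℕ) : 0 ≤ tt M j := by unfold tt; positivity

theorem tt_le_one {M j : ℕ} (hj : j < 2 ^ M) : tt M j ≤ 1 := by
  unfold tt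
  rw [div_le_one (by positivity)]
  exact_mod_cast hj.le

theorem tr_nonneg (M i j : ℕ) : 0 ≤ tr M i j := by unfold tr; positivity

theorem cc_nonneg (n M j : ℕ) : 0 ≤ cc n M j := by
  unfold cc
  exact div_nonneg (Finset.sum_nonneg (fun i _ => tr_nonneg _ _ _)) (Nat.cast_nonneg _)

theorem cc_le_one {n M j : ℕ} (hn : 0 < n) (hnM : n ≤ M) (hj : j < 2 ^ M) : cc n M j ≤ 1 := by
  unfold cc
  have hn' : (0:ℝ) < n := by exact_mod_cast hn
  rw [div_le_one hn']
  calc ∑ i ∈ range n, tr M (i + 1) j ≤ ∑ i ∈ range n, (1:ℝ) := by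
        apply Finset.sum_le_sum
        intro i hi
        rw [Finset.mem_range] at hi
        exact (tr_le M (i + 1) j (by omega)).trans (tt_le_one hj)
    _ = n := by simp

/-- the centre of the interval which contains all `c_j - t_j z` with the first `K` digits `a` -/
noncomputable def PP (n K : ℕ) (β : ℝ) (a : ℕ) : ℝ :=
  (∑ i ∈ range K, ((a / 2 ^ (K - (i + 1)) : ℕ) : ℝ) / 2 ^ (i + 1)) / n + (a : ℝ) / 2 ^ K * β

theorem close (n M K j : ℕ) (hn : 0 < n) (hKn : K ≤ n) (hnM : n ≤ M) (β z : ℝ) (hβ0 : 0 ≤ β)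
    (hβ1 : β ≤ 1 / n) (hβ : ((n - K : ℕ) : ℝ) / n - z = β) :
    |cc n M j - tt M j * z - PP n K β (j / 2 ^ (M - K))| ≤ 1 / (n * 2 ^ K) := by
  have hn' : (0:ℝ) < n := by exact_mod_cast hn
  have hpre : ∀ i ∈ range K, tr M (i + 1) j
      = (((j / 2 ^ (M - K)) / 2 ^ (K - (i + 1)) : ℕ) : ℝ) / 2 ^ (i + 1) := by
    intro i hi
    rw [Finset.mem_range] at hi
    unfold tr
    rw [Nat.div_div_eq_div_mul, ← pow_add]
    congr 4
    omega
  have hsplit : ∑ i ∈ range n, tr M (i + 1) j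
      = ∑ i ∈ range K, (((j / 2 ^ (M - K)) / 2 ^ (K - (i + 1)) : ℕ) : ℝ) / 2 ^ (i + 1)
        + ∑ i ∈ Finset.Ico K n, tr M (i + 1) j := by
    rw [← Finset.sum_congr rfl hpre, Finset.sum_range_add_sum_Ico _ hKn]
  have hup : ∑ i ∈ Finset.Ico K n, tr M (i + 1) j ≤ ((n - K : ℕ) : ℝ) * tt M j := by
    calc _ ≤ ∑ i ∈ Finset.Ico K n, tt M j := by
          apply Finset.sum_le_sum
          intro i hi
          rw [Finset.mem_Ico] at hi
          exact tr_le M (i + 1) j (by omega)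
      _ = _ := by rw [Finset.sum_const, Nat.card_Ico, nsmul_eq_mul]
  have hgeo : ∀ d : ℕ, ∑ i ∈ Finset.Ico K (K + d), (1:ℝ) / 2 ^ (i + 1) = 1 / 2 ^ K - 1 / 2 ^ (K + d) := by
    intro d
    induction d with
    | zero => simp
    | succ d ih =>
      rw [← add_assoc, Finset.sum_Ico_succ_top (by omega), ih]
      rw [pow_succ 2 (K + d)]
      field_simp
      ring
  have hlow : ((n - K : ℕ) : ℝ) * tt M j - 1 / 2 ^ K ≤ ∑ i ∈ Finset.Ico K n, tr M (i + 1) j := by
    have h1 : ∑ i ∈ Finset.Ico K n, (tt M j - 1 / 2 ^ (i + 1))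
        ≤ ∑ i ∈ Finset.Ico K n, tr M (i + 1) j := by
      apply Finset.sum_le_sum
      intro i hi
      rw [Finset.mem_Ico] at hi
      exact le_tr M (i + 1) j (by omega)
    rw [Finset.sum_sub_distrib, Finset.sum_const, Nat.card_Ico, nsmul_eq_mul] at h1
    have h2 := hgeo (n - K)
    have h3 : K + (n - K) = n := by omega
    rw [h3] at h2
    rw [h2] at h1
    have h4 : (0:ℝ) < 1 / 2 ^ n := by positivity
    linarith
  have ha1 := tr_le M K j (hKn.trans hnM)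
  have ha2 := le_tr M K j (hKn.trans hnM)
  have htr : tr M K j = ((j / 2 ^ (M - K) : ℕ) : ℝ) / 2 ^ K := rfl
  rw [htr] at ha1 ha2
  set A : ℝ := ((j / 2 ^ (M - K) : ℕ) : ℝ) / 2 ^ K with hA
  set S1 : ℝ := ∑ i ∈ range K, (((j / 2 ^ (M - K)) / 2 ^ (K - (i + 1)) : ℕ) : ℝ) / 2 ^ (i + 1)
    with hS1
  set S2 : ℝ := ∑ i ∈ Finset.Ico K n, tr M (i + 1) j with hS2
  have hPP : PP n K β (j / 2 ^ (M - K)) = S1 / n + A * β := rfl
  have hcc : cc n M j = (S1 + S2) / n := by unfold cc; rw [hsplit]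
  rw [hPP, hcc]
  set nk : ℝ := ((n - K : ℕ) : ℝ) with hnk
  set T := tt M j with hT
  have e1 : (S1 + S2) / n - T * z - (S1 / n + A * β) = (S2 - nk * T) / n + β * (T - A) := by
    rw [← hβ]; field_simp; ring
  rw [e1]
  have e2 : (1:ℝ) / (n * 2 ^ K) = (1 / n) * (1 / 2 ^ K) := by field_simp
  rw [e2]
  have h5 : 0 ≤ β * (T - A) := mul_nonneg hβ0 (by linarith)
  have h6 : β * (T - A) ≤ (1 / n) * (1 / 2 ^ K) :=
    mul_le_mul hβ1 (by linarith) (by linarith) (by positivity)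
  have h7 : (S2 - nk * T) / n ≤ 0 := div_nonpos_of_nonpos_of_nonneg (by linarith) hn'.le
  have h8 : -((1 / n) * (1 / 2 ^ K)) ≤ (S2 - nk * T) / n := by
    have : -((1 / (n:ℝ)) * (1 / 2 ^ K)) = (-(1 / 2 ^ K)) / n := by field_simp
    rw [this]
    exact div_le_div_of_nonneg_right (by linarith) hn'.le
  rw [abs_le]
  constructor <;> linarith

/-- The measure of a slice. -/
theorem slice_measure (n m : ℕ) (hn : 0 < n) (hm : n ≤ 2 ^ m) (l z : ℝ) (hl : 0 < l)
    (hz0 : 0 ≤ z) (hz1 : z ≤ 1) :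
    volume {y : ℝ | ∃ j < 2 ^ (n + m), |y - l * (cc n (n + m) j - tt (n + m) j * z)|
      ≤ l * (1 / 2 ^ (n + m))} ≤ ENNReal.ofReal (l * (4 / n)) := by
  have hn' : (0:ℝ) < n := by exact_mod_cast hn
  set M := n + m with hM
  set c : ℕ := ⌈(n:ℝ) * z⌉₊ with hc
  have hcn : c ≤ n := by
    rw [hc, Nat.ceil_le]
    nlinarith
  set K : ℕ := n - c with hK
  have hKn : K ≤ n := Nat.sub_le _ _
  have hnK : n - K = c := by omega
  set β : ℝ := (c:ℝ) / n - z with hβ
  have hβ0 : 0 ≤ β := by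
    have h1 : (n:ℝ) * z ≤ c := Nat.le_ceil _
    rw [hβ, sub_nonneg, le_div_iff₀ hn']
    linarith
  have hβ1 : β ≤ 1 / n := by
    have h1 : (c:ℝ) < n * z + 1 := Nat.ceil_lt_add_one (by positivity)
    have h2 : (c:ℝ) / n ≤ z + 1 / n := by
      rw [div_le_iff₀ hn']
      have : (z + 1 / n) * n = n * z + 1 := by field_simp
      rw [this]; exact h1.le
    rw [hβ]; linarith
  set ρ : ℝ := l * (1 / (n * 2 ^ K) + 1 / 2 ^ M) with hρ
  have hρ0 : 0 ≤ ρ := by rw [hρ]; positivity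
  have hsub : {y : ℝ | ∃ j < 2 ^ M, |y - l * (cc n M j - tt M j * z)| ≤ l * (1 / 2 ^ M)}
      ⊆ ⋃ a ∈ Finset.range (2 ^ K), Set.Icc (l * PP n K β a - ρ) (l * PP n K β a + ρ) := by
    rintro y ⟨j, hj, hy⟩
    rw [Set.mem_iUnion₂]
    refine ⟨j / 2 ^ (M - K), ?_, ?_⟩
    · rw [Finset.mem_range, Nat.div_lt_iff_lt_mul (by positivity), ← pow_add]
      have : K + (M - K) = M := by omega
      rw [this]; exact hj
    · have h1 := close n M K j hn hKn (by omega) β z hβ0 hβ1 (by rw [hnK])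
      have h2 : |l * (cc n M j - tt M j * z) - l * PP n K β (j / 2 ^ (M - K))|
          ≤ l * (1 / (n * 2 ^ K)) := by
        rw [← mul_sub, abs_mul, abs_of_pos hl]
        exact mul_le_mul_of_nonneg_left h1 hl.le
      have h3 := abs_add_le (y - l * (cc n M j - tt M j * z))
        (l * (cc n M j - tt M j * z) - l * PP n K β (j / 2 ^ (M - K)))
      have h4 : |y - l * PP n K β (j / 2 ^ (M - K))| ≤ ρ := by
        have e : y - l * PP n K β (j / 2 ^ (M - K)) = (y - l * (cc n M j - tt M j * z))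
          + (l * (cc n M j - tt M j * z) - l * PP n K β (j / 2 ^ (M - K))) := by ring
        rw [e, hρ, mul_add]
        linarith
      rw [abs_le] at h4
      constructor <;> linarith [h4.1, h4.2]
  refine (measure_mono hsub).trans ?_
  refine (measure_biUnion_finset_le _ _).trans ?_
  have h5 : ∀ a ∈ Finset.range (2 ^ K),
      volume (Set.Icc (l * PP n K β a - ρ) (l * PP n K β a + ρ)) = ENNReal.ofReal (2 * ρ) := by
    intro a _
    rw [Real.volume_Icc]
    congr 1; ring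
  rw [Finset.sum_congr rfl h5, Finset.sum_const, Finset.card_range, nsmul_eq_mul]
  have h6 : ((2 ^ K : ℕ) : ENNReal) = ENNReal.ofReal (2 ^ K) := by
    rw [← ENNReal.ofReal_natCast]; push_cast; rfl
  rw [h6, ← ENNReal.ofReal_mul (by positivity)]
  apply ENNReal.ofReal_le_ofReal
  have h7 : (2:ℝ) ^ K * (2 * ρ) = l * (2 / n + 2 * (2 ^ K / 2 ^ M)) := by
    rw [hρ]; field_simp
  rw [h7]
  apply mul_le_mul_of_nonneg_left _ hl.le
  have h8 : (2:ℝ) ^ K / 2 ^ M ≤ 1 / n := by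
    have h9 : (2:ℝ) ^ K / 2 ^ M ≤ 2 ^ n / 2 ^ M := by
      apply div_le_div_of_nonneg_right _ (by positivity)
      exact pow_le_pow_right₀ (by norm_num) hKn
    have h10 : (2:ℝ) ^ n / 2 ^ M = 1 / 2 ^ m := by
      rw [hM, pow_add]; field_simp
    have h11 : (1:ℝ) / 2 ^ m ≤ 1 / n := by
      apply one_div_le_one_div_of_le hn'
      exact_mod_cast hm
    linarith
  have h12 : (4:ℝ) / n = 2 / n + 2 * (1 / n) := by ring
  rw [h12]; linarith

end V11329.CM
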